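import Pool.Agent.N204.TB.Stm
import Pool.Agent.R940.Tor

/-!
# The Weil numbers
-/

set_option linter.unusedSectionVars false

namespace Pool.Agent.N459.TB

open Pool.Agent.N204.TB (QB IsWeilNum wt slp row S_WN1 S_WN2 S_WN3)

section Proofs

open Polynomial
open Pool.Agent.R940 (IsWeilFamily IsT EF el)

variable {p : ℕ} [hp : Fact p.Prime] {e D : ℕ}

lemma aeval_of_minpoly {K A : Type*} [Field K] [CharZero K] [Field A] [CharZero A] {x : K}
    {P : ℤ[X]} (h : aeval x P = 0) {y : A} (hy : aeval y (minpoly ℚ x) = 0) : aeval y P = 0 := by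
  have h1 : aeval x (P.map (Int.castRingHom ℚ)) = 0 := by
    rw [aeval_def, eval₂_map]
    rw [aeval_def] at h
    rw [← h]
    congr 1
    exact RingHom.ext_int _ _
  obtain ⟨Q, hQ⟩ := minpoly.dvd ℚ x h1
  have h2 : aeval y (P.map (Int.castRingHom ℚ)) = 0 := by rw [hQ, map_mul, hy, zero_mul]
  rw [aeval_def, eval₂_map] at h2
  rw [aeval_def, ← h2]
  congr 1
  exact RingHom.ext_int _ _

lemma family {κ : Type} {α : κ → ℂ} {d : κ → ℕ} (h : ∀ k, IsWeilNum p e D (d k) (α k)) :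
    IsWeilFamily p e D α d where
  int k := by
    obtain ⟨P, h1, h2, _, _⟩ := h k
    exact ⟨P, h1, h2⟩
  arch k y hy := by
    obtain ⟨P, _, h2, h3, _⟩ := h k
    exact h3 y (aeval_of_minpoly h2 hy)
  slope k y hy := by
    obtain ⟨P, _, h2, _, h4⟩ := h k
    exact h4 y (aeval_of_minpoly h2 hy)

lemma mem_QB {d : ℕ} {α : ℂ} (h : IsWeilNum p e D d α) : α ∈ QB := by
  obtain ⟨P, h1, h2, _, _⟩ := h
  rw [mem_algebraicClosure_iff]
  have h3 : IsIntegral ℤ α := ⟨P, h1, h2⟩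
  exact (h3.tower_top (A := ℚ)).isAlgebraic

lemma one_lt_q (he : 0 < e) : 1 < ((p ^ e : ℕ) : ℝ) := by
  push_cast
  exact Pool.Agent.R940.pe_pos he

lemma wt_eq (he : 0 < e) {d : ℕ} {α : ℂ} (h : ‖α‖ ^ 2 = ((p ^ e : ℕ) : ℝ) ^ d) :
    wt (p ^ e) α = d := by
  have h1 : ∃ d : ℕ, ‖α‖ ^ 2 = ((p ^ e : ℕ) : ℝ) ^ d := ⟨d, h⟩
  rw [wt, dif_pos h1]
  have h2 := h.symm.trans h1.choose_spec
  exact (pow_right_injective₀ (zero_lt_one.trans (one_lt_q he)) (one_lt_q he).ne' h2).symm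

lemma slp_eq (he : 0 < e) {ψ : QB →+* PadicAlgCl p} {α : ℂ} (hα : α ∈ QB) {m : ℤ}
    (h : ‖ψ ⟨α, hα⟩‖ ^ D = ((p ^ e : ℕ) : ℝ) ^ (-m)) : slp (p ^ e) D ψ α = m := by
  have h1 : ∃ (hα : α ∈ QB) (m : ℤ), ‖ψ ⟨α, hα⟩‖ ^ D = ((p ^ e : ℕ) : ℝ) ^ (-m) := ⟨hα, m, h⟩
  rw [slp, dif_pos h1]
  have h2 := h.symm.trans h1.choose_spec.choose_spec
  have h3 := zpow_right_injective₀ (zero_lt_one.trans (one_lt_q he)) (one_lt_q he).ne' h2
  omega

lemma EF_le {κ : Type} {α : κ → ℂ} (h : ∀ k, α k ∈ QB) : EF α ≤ QB := by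
  rw [EF, IntermediateField.adjoin_le_iff]
  rintro _ ⟨k, rfl⟩
  exact h k

/-- The restriction of an embedding. -/
noncomputable def res {κ : Type} {α : κ → ℂ} (h : ∀ k, α k ∈ QB) (ψ : QB →+* PadicAlgCl p) :
    EF α →ₐ[ℚ] PadicAlgCl p :=
  (ψ.toRatAlgHom).comp (IntermediateField.inclusion (EF_le h))

lemma res_el {κ : Type} {α : κ → ℂ} (h : ∀ k, α k ∈ QB) (ψ : QB →+* PadicAlgCl p) (k : κ) :
    res h ψ (el α k) = ψ ⟨α k, h k⟩ := rfl

lemma exists_ext {κ : Type} {α : κ → ℂ} (h : ∀ k, α k ∈ QB) (ψ' : EF α →ₐ[ℚ] PadicAlgCl p) :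
    ∃ ψ : QB →+* PadicAlgCl p, res h ψ = ψ' := by
  let _ : Algebra (EF α) (PadicAlgCl p) := ψ'.toRingHom.toAlgebra
  let _ : Algebra (EF α) QB := (IntermediateField.inclusion (EF_le h)).toRingHom.toAlgebra
  have : IsScalarTower ℚ (EF α) QB := IsScalarTower.of_algebraMap_eq fun x => rfl
  have : Algebra.IsAlgebraic ℚ QB := algebraicClosure.isAlgebraic ℚ ℂ
  have : Algebra.IsAlgebraic (EF α) QB := Algebra.IsAlgebraic.tower_top (K := ℚ) (EF α)
  let ψ : QB →ₐ[EF α] PadicAlgCl p := IsAlgClosed.lift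
  refine ⟨ψ.toRingHom, ?_⟩
  ext x
  exact ψ.commutes x

lemma row_eq (he : 0 < e) {κ : Type} {α : κ → ℂ} {d : κ → ℕ}
    (h : ∀ k, IsWeilNum p e D (d k) (α k)) (ψ : QB →+* PadicAlgCl p) (k : κ) :
    row (p ^ e) D ψ (α k) =
      Pool.Agent.R940.row (family h) (res (fun k => mem_QB (h k)) ψ) k := by
  have h1 : wt (p ^ e) (α k) = d k := by
    apply wt_eq he
    obtain ⟨P, _, h2, h3, _⟩ := h k
    push_cast
    exact h3 _ h2
  have h2 : slp (p ^ e) D ψ (α k) =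
      Pool.Agent.R940.mm (family h) (res (fun k => mem_QB (h k)) ψ) k := by
    apply slp_eq he (mem_QB (h k))
    have h3 := Pool.Agent.R940.mm_spec (family h) (res (fun k => mem_QB (h k)) ψ) k
    rw [res_el] at h3
    push_cast
    exact h3
  rw [row, Pool.Agent.R940.row, h1, h2]

theorem wn1 : S_WN1 := by
  intro κ _ p _ e D he hD α d h j hj hrow
  obtain ⟨_, s, hs, h1⟩ := Pool.Agent.R940.isT_of_row_zero he hD (family h) (c := fun _ => 1)
    ⟨j, by simp only [mul_one]; omega⟩ (by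
      intro ψ'
      obtain ⟨ψ, rfl⟩ := exists_ext (fun k => mem_QB (h k)) ψ'
      simp only [Nat.cast_one, mul_one]
      rw [← hrow ψ]
      exact Finset.sum_congr rfl fun k _ => (row_eq he h ψ k).symm)
  refine ⟨2 * s, by omega, ?_⟩
  simp only [pow_one, mul_one] at h1
  rw [h1, hj]
  congr 1
  ring

theorem wn2 : S_WN2 := by
  intro κ _ p _ e D he hD α d h j m hm h1
  have h2 : ∑ k, d k = 2 * j := by
    have h3 := congrArg (fun x => ‖x‖ ^ 2) h1
    simp only [norm_pow, norm_prod, Complex.norm_natCast] at h3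
    rw [← pow_mul, mul_comm m 2, pow_mul, ← Finset.prod_pow, ← pow_mul] at h3
    have h4 : ∀ k, ‖α k‖ ^ 2 = ((p ^ e : ℕ) : ℝ) ^ d k := by
      intro k
      obtain ⟨P, _, h2, h3, _⟩ := h k
      push_cast
      exact h3 _ h2
    rw [Finset.prod_congr rfl fun k _ => h4 k, Finset.prod_pow_eq_pow_sum, ← pow_mul] at h3
    have h5 := pow_right_injective₀ (zero_lt_one.trans (one_lt_q he)) (one_lt_q he).ne' h3
    apply Nat.eq_of_mul_eq_mul_right hm
    rw [h5]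
    ring
  refine ⟨h2, fun ψ => ?_⟩
  have h3 : IsT (p ^ e) α d (fun _ => 1) := by
    refine ⟨⟨j, by simp only [mul_one]; omega⟩, m, hm, ?_⟩
    simp only [pow_one, mul_one]
    rw [mul_comm 2 m, pow_mul, h1, h2, ← pow_mul]
    congr 1
    ring
  have h4 := Pool.Agent.R940.row_zero_of_isT he (family h) h3 (res (fun k => mem_QB (h k)) ψ)
  simp only [Nat.cast_one, mul_one] at h4
  rw [← h4]
  exact Finset.sum_congr rfl fun k _ => row_eq he h ψ k

theorem wn3 : S_WN3 := by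
  intro p _ e D he hD α d h
  have hw : wt (p ^ e) α = d := by
    apply wt_eq he
    obtain ⟨P, _, h2, h3, _⟩ := h
    push_cast
    exact h3 _ h2
  refine ⟨hw, fun ψ => ⟨?_, ?_⟩⟩
  · have h1 := row_eq (κ := Unit) (α := fun _ => α) (d := fun _ => d) he (fun _ => h) ψ ()
    rw [h1]
    exact Pool.Agent.R940.row_le he (family (κ := Unit) (α := fun _ => α) (d := fun _ => d)
      fun _ => h) _ ()
  · have h1 : wt (p ^ e) 1 = 0 := wt_eq he (by simp)
    have h2 : slp (p ^ e) D ψ 1 = 0 := by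
      apply slp_eq he (one_mem QB)
      have : (⟨1, one_mem QB⟩ : QB) = 1 := rfl
      rw [this, map_one]
      simp
    rw [row, h1, h2]
    simp

end Proofs

end Pool.Agent.N459.TB
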